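import Pool.Agent.Helper58.AV.P4b
import Pool.Agent.Helper50.AV.P2b

/-!
Pairs of linked Lie algebras of operators, block P4.
-/

open Module

namespace AV

open MTP

variable {K : Type*} [Field K] [IsAlgClosed K] [CharZero K]
variable {W₁ W₂ : Type*} [AddCommGroup W₁] [Module K W₁] [FiniteDimensional K W₁]
  [AddCommGroup W₂] [Module K W₂] [FiniteDimensional K W₂]
variable {L : Submodule K (Module.End K W₁ × Module.End K W₂)}
  {b₁ : LinearMap.BilinForm K W₁} {b₂ : LinearMap.BilinForm K W₂}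

theorem pair_US (hL : Lk L) (hd : 3 ≤ finrank K W₁)
    (hb2 : b₂.Nondegenerate) (ha2 : b₂.IsAlt) (h1 : On1 L (slw K W₁)) (h2 : On2 L (skw b₂)) :
    False :=
  P4.pair_US_of (fun _ hs h0 hg => grd_sp hb2 ha2 hs h0 hg) hL hd hb2 ha2 h1 h2

theorem pair_UO (hL : Lk L) (hb2 : b₂.Nondegenerate) (ha2 : ∀ v w, b₂ v w = b₂ w v)
    (h1 : On1 L (slw K W₁)) (h2 : On2 L (skw b₂)) (he2 : Even (finrank K W₂))
    (hd2 : 6 ≤ finrank K W₂) :
    finrank K W₁ = 4 ∧ finrank K W₂ = 6 ∧ ∀ x ∈ L, ∀ (P : Module.End K W₁)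
      (Q : Module.End K W₂) (c : K), P * P = P → Q * Q = Q → x.1 = P - c • 1 →
      x.2 = Q - (2 : K)⁻¹ • 1 → MTP.rk P = 1 ∨ MTP.rk P = 3 :=
  P4.pair_UO_of (fun _ hs h0 hg => grd_so hb2 ha2 (by omega) hs h0 hg) hL hb2 ha2 h1 h2 he2 hd2

theorem pair_SO (hL : Lk L) (hb1 : b₁.Nondegenerate) (ha1 : b₁.IsAlt)
    (hb2 : b₂.Nondegenerate) (ha2 : ∀ v w, b₂ v w = b₂ w v) (h1 : On1 L (skw b₁))
    (h2 : On2 L (skw b₂)) (he2 : Even (finrank K W₂)) (hd2 : 6 ≤ finrank K W₂) : False :=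
  P4.pair_SO_of (fun _ hs h0 hg => grd_sp hb1 ha1 hs h0 hg) hL hb1 ha1 hb2 ha2 h1 h2 he2 hd2

end AV
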