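import Pool.Agent.Helper58.AV.P4a
import Pool.Agent.Helper27.AV.P1

/-!
Pairs of linked Lie algebras of operators, block P4: different types, from the classification of
the gradings.
-/

set_option linter.unusedSectionVars false

open Module

namespace AV

open MTP

namespace P4

variable {K : Type*} [Field K] {W : Type*} [AddCommGroup W] [Module K W] [FiniteDimensional K W]

/-- A hyperbolic pair. -/
theorem exists_hyp [IsAlgClosed K] [CharZero K] {b : LinearMap.BilinForm K W}
    (hb : b.Nondegenerate) (ha : ∀ v w, b v w = b w v) (hd : 2 ≤ finrank K W) :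
    ∃ e f : W, b e e = 0 ∧ b f f = 0 ∧ b e f = 1 := by
  obtain ⟨e, he0, hee⟩ : ∃ e : W, e ≠ 0 ∧ b e e = 0 := by
    have hn : Nontrivial W := Module.nontrivial_of_finrank_pos (R := K) (by omega)
    obtain ⟨u, hu⟩ := exists_ne (0 : W)
    by_cases huu : b u u = 0
    · exact ⟨u, hu, huu⟩
    obtain ⟨w, hw⟩ : ∃ w : W, w ∉ Submodule.span K {u} := by
      by_contra! hcon
      have h1 : Submodule.span K {u} = ⊤ := by
        rw [eq_top_iff]
        exact fun w _ => hcon w
      have h2 := finrank_span_singleton (K := K) hu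
      rw [h1, finrank_top] at h2
      omega
    obtain ⟨t, ht⟩ : ∃ t : K, b u u * t * t + 2 * b w u * t + b w w = 0 := by
      obtain ⟨r, hr⟩ := IsAlgClosed.exists_pow_nat_eq ((b w u) ^ 2 - b u u * b w w)
        (n := 2) (by norm_num)
      refine ⟨(r - b w u) / b u u, ?_⟩
      field_simp
      linear_combination hr
    refine ⟨w + t • u, ?_, ?_⟩
    · intro h0
      apply hw
      rw [Submodule.mem_span_singleton]
      refine ⟨-t, ?_⟩
      rw [neg_smul]
      exact (eq_neg_of_add_eq_zero_left h0).symm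
    · simp only [map_add, map_smul, LinearMap.add_apply, LinearMap.smul_apply, smul_eq_mul]
      rw [ha u w]
      linear_combination ht
  obtain ⟨f₀, hf₀⟩ : ∃ f, b e f ≠ 0 := by
    by_contra! hcon
    exact he0 (hb.1 e hcon)
  set g := (b e f₀)⁻¹ • f₀ with hg
  have hg1 : b e g = 1 := by
    rw [hg, map_smul, smul_eq_mul, inv_mul_cancel₀ hf₀]
  refine ⟨e, g - (b g g / 2) • e, hee, ?_, ?_⟩
  · simp only [map_sub, map_smul, LinearMap.sub_apply, LinearMap.smul_apply, smul_eq_mul]
    rw [ha g e, hg1, hee]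
    ring
  · rw [map_sub, hg1, map_smul, hee, smul_zero, sub_zero]

/-- The grading element of vector type. -/
theorem exists_vec [IsAlgClosed K] [CharZero K] {b : LinearMap.BilinForm K W}
    (hb : b.Nondegenerate) (ha : ∀ v w, b v w = b w v) (hd : 2 ≤ finrank K W) :
    ∃ h : Module.End K W, IsSk b h ∧ h * h * h = h ∧ MTP.rk h = 2 ∧ Grd (skw b) h := by
  obtain ⟨e, f, hee, hff, hef⟩ := exists_hyp hb ha hd
  have hfe : b f e = 1 := by rw [ha, hef]
  set h : Module.End K W := (b f).smulRight e - (b e).smulRight f with hh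
  have hw : ∀ w, h w = b f w • e - b e w • f := fun w => by
    rw [hh, LinearMap.sub_apply, LinearMap.smulRight_apply, LinearMap.smulRight_apply]
  have he : h e = e := by rw [hw, hfe, hee, one_smul, zero_smul, sub_zero]
  have hf : h f = -f := by rw [hw, hff, hef, one_smul, zero_smul, zero_sub]
  have h3 : h * h * h = h := by
    ext w
    rw [Module.End.mul_apply, Module.End.mul_apply, hw w, map_sub, map_smul, map_smul, he, hf,
      map_sub, map_smul, map_smul, he, map_neg, hf, neg_neg]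
  refine ⟨h, ?_, h3, ?_, ?_⟩
  · intro v w
    rw [hw, hw]
    simp only [map_sub, map_smul, LinearMap.sub_apply, LinearMap.smul_apply, smul_eq_mul]
    rw [ha v e, ha v f]
    ring
  · have e1 : LinearMap.range h = Submodule.span K (Set.range ![e, f]) := by
      apply le_antisymm
      · rintro _ ⟨w, rfl⟩
        rw [hw]
        apply Submodule.sub_mem
        · exact Submodule.smul_mem _ _ (Submodule.subset_span ⟨0, rfl⟩)
        · exact Submodule.smul_mem _ _ (Submodule.subset_span ⟨1, rfl⟩)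
      · rw [Submodule.span_le]
        rintro _ ⟨i, rfl⟩
        fin_cases i
        · exact ⟨e, he⟩
        · exact ⟨-f, by rw [map_neg, hf, neg_neg]; rfl⟩
    have e2 : LinearIndependent K ![e, f] := by
      rw [LinearIndependent.pair_iff]
      intro s t hst
      have h1 := congrArg (b f) hst
      have h2 := congrArg (b e) hst
      simp only [map_add, map_smul, smul_eq_mul, hfe, hff, hee, hef, map_zero, mul_one,
        mul_zero, add_zero, zero_add] at h1 h2
      exact ⟨h1, h2⟩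
    rw [MTP.rk, e1, finrank_span_eq_card e2, Fintype.card_fin]
  · intro z hz
    have hz' : IsSk b z := hz
    have t1 : b e (z e) = 0 := by
      have h1 := hz' e e
      rw [ha (z e) e] at h1
      have h2 : (2 : K) * b e (z e) = 0 := by linear_combination h1
      exact (mul_eq_zero.mp h2).resolve_left two_ne_zero
    have t2 : b f (z f) = 0 := by
      have h1 := hz' f f
      rw [ha (z f) f] at h1
      have h2 : (2 : K) * b f (z f) = 0 := by linear_combination h1
      exact (mul_eq_zero.mp h2).resolve_left two_ne_zero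
    have t3 : b e (z f) = - b f (z e) := by
      have h1 := hz' e f
      rw [ha (z e) f] at h1
      rw [h1, neg_neg]
    have hzh : h * z * h = b f (z e) • h := by
      ext w
      rw [Module.End.mul_apply, Module.End.mul_apply, LinearMap.smul_apply, hw w, map_sub,
        map_smul, map_smul, map_sub, map_smul, map_smul, hw (z e), hw (z f), t1, t2, t3]
      module
    have e2 : h * (h * (h * z - z * h) - (h * z - z * h) * h) -
        (h * (h * z - z * h) - (h * z - z * h) * h) * h =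
        (h * h * h) * z - z * (h * h * h) - 3 • (h * (h * z * h)) + 3 • ((h * z * h) * h) := by
      noncomm_ring
    rw [e2, h3, hzh]
    rw [mul_smul_comm, smul_mul_assoc]
    abel

variable {W₁ W₂ : Type*} [AddCommGroup W₁] [Module K W₁] [FiniteDimensional K W₁]
  [AddCommGroup W₂] [Module K W₂] [FiniteDimensional K W₂]
variable {L : Submodule K (Module.End K W₁ × Module.End K W₂)}
  {M₂ : Submodule K (Module.End K W₂)}

/-- The start: an element whose first component is the grading element of a projective space. -/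
theorem start [IsAlgClosed K] [CharZero K] (hL : Lk L) (h1 : On1 L (slw K W₁)) (h2 : On2 L M₂) :
    ∃ x ∈ L, x.2 ≠ 0 ∧ Grd M₂ x.2 ∧ finrank K (Gone M₂ x.2) + 1 = finrank K W₁ ∧
      2 ≤ finrank K W₁ := by
  have n1 := nontriv1 hL
  obtain ⟨q, hq, hr, ht⟩ := exists_one K W₁
  have hd1 : 1 ≤ finrank K W₁ := finrank_pos
  have hd2 : 2 ≤ finrank K W₁ := by
    by_contra hcon
    have hd : finrank K W₁ = 1 := by omega
    have h3 := dim_sl (K := K) (W := W₁)
    rw [hd] at h3
    obtain ⟨x, hx, hx0⟩ := hL.ne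
    have h4 : finrank K (slw K W₁) = 0 := by omega
    rw [Submodule.finrank_eq_zero] at h4
    have h5 := mem1 h1 hx
    rw [h4, Submodule.mem_bot] at h5
    exact hx0 (Prod.ext h5 (hL.k1 x hx h5))
  set c : K := (finrank K W₁ : K)⁻¹ with hc
  have hn0 : (finrank K W₁ : K) ≠ 0 := by
    rw [Nat.cast_ne_zero]
    omega
  have hm : q - c • 1 ∈ slw K W₁ := by
    rw [slw, LinearMap.mem_ker, map_sub, map_smul, ht, LinearMap.trace_one, smul_eq_mul, hc,
      inv_mul_cancel₀ hn0, sub_self]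
  obtain ⟨x, hx, hx1⟩ := lift1 h1 hm
  have hq0 : q ≠ 0 := by
    rintro rfl
    rw [MTP.rk, LinearMap.range_zero, finrank_bot] at hr
    exact zero_ne_one hr
  have hq1 : q ≠ 1 := by
    rintro rfl
    have h3 : MTP.rk (1 : Module.End K W₁) = finrank K W₁ := by
      rw [MTP.rk, Module.End.one_eq_id, LinearMap.range_id, finrank_top]
    omega
  have hne : x.1 ≠ 0 := by
    rw [hx1]
    intro h0
    rw [sub_eq_zero] at h0
    rw [h0] at hq
    rw [smul_mul_smul_comm, one_mul] at hq
    have h3 : (c * c - c) • (1 : Module.End K W₁) = 0 := by rw [sub_smul, hq, sub_self]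
    have h4 := (smul_eq_zero.mp h3).resolve_right one_ne_zero
    have h5 : c * (c - 1) = 0 := by linear_combination h4
    rcases mul_eq_zero.mp h5 with h6 | h6
    · exact hq0 (by rw [h0, h6, zero_smul])
    · exact hq1 (by rw [h0, sub_eq_zero.mp h6, one_smul])
  refine ⟨x, hx, ne1 hL hx hne, grd12 hL h1 h2 hx (by rw [hx1]; exact grd_idem _ hq c), ?_, hd2⟩
  rw [← gone_eq hL h1 h2 hx, hx1, dim_sl_one hq hq0 hq1, hr]
  omega

end P4

variable {K : Type*} [Field K]
variable {W₁ W₂ : Type*} [AddCommGroup W₁] [Module K W₁] [FiniteDimensional K W₁]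
  [AddCommGroup W₂] [Module K W₂] [FiniteDimensional K W₂]
variable {L : Submodule K (Module.End K W₁ × Module.End K W₂)}
  {b₁ : LinearMap.BilinForm K W₁} {b₂ : LinearMap.BilinForm K W₂}

variable [IsAlgClosed K] [CharZero K]

theorem P4.pair_US_of (hgrd : ∀ h : Module.End K W₂, IsSk b₂ h → h ≠ 0 → Grd (skw b₂) h →
      ∃ P : Module.End K W₂, P * P = P ∧ h = P - (2 : K)⁻¹ • 1) (hL : Lk L)
    (hd : 3 ≤ finrank K W₁) (hb2 : b₂.Nondegenerate) (ha2 : b₂.IsAlt)
    (h1 : On1 L (slw K W₁)) (h2 : On2 L (skw b₂)) : False := by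
  have n1 := P4.nontriv1 hL
  obtain ⟨x, hx, hx0, hg, hdim, -⟩ := P4.start hL h1 h2
  have hs := P4.mem2 h2 hx
  obtain ⟨P, hP, hxP⟩ := hgrd _ hs hx0 hg
  rw [hxP] at hs hdim
  obtain ⟨e1, e2⟩ := dim_sp_one hb2 ha2 hP hs
  have e3 := dim_sl (K := K) (W := W₁)
  have e4 := dim_sp hb2 ha2
  have e5 := P4.dim_eq hL h1 h2
  rw [e5] at e3
  rw [← e1] at e4
  set k := MTP.rk P
  set n := finrank K W₁
  set D := finrank K (skw b₂)
  set G := finrank K (Gone (skw b₂) (P - (2 : K)⁻¹ • 1))
  have z1 : (2 * (n : ℤ) - 2) = k * (k + 1) := by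
    have h3 : (2 * (G : ℤ)) = k * (k + 1) := by exact_mod_cast e2
    have h4 : (G : ℤ) + 1 = n := by exact_mod_cast hdim
    linarith
  have z2 : ((n : ℤ) * n - 1) = k * (2 * k + 1) := by
    have h3 : (2 * (D : ℤ)) = 2 * k * (2 * k + 1) := by exact_mod_cast e4
    have h4 : (D : ℤ) + 1 = n * n := by exact_mod_cast e3
    linarith
  have z3 : (k : ℤ) * (k + 1) * (k * (k + 1) + 4) = 4 * (k * (2 * k + 1)) := by
    rw [← z1, ← z2]; ring
  have z4 : (k : ℤ) * (k * ((k + 3) * ((k : ℤ) - 1))) = 0 := by linear_combination z3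
  have hk : (k : ℤ) = 0 ∨ (k : ℤ) = 1 := by
    rcases mul_eq_zero.mp z4 with h3 | h3
    · exact Or.inl h3
    rcases mul_eq_zero.mp h3 with h3 | h3
    · exact Or.inl h3
    rcases mul_eq_zero.mp h3 with h3 | h3
    · exfalso; omega
    · right; omega
  rcases hk with h3 | h3 <;> rw [h3] at z1 <;> omega

theorem P4.pair_UO_of (hgrd : ∀ h : Module.End K W₂, IsSk b₂ h → h ≠ 0 → Grd (skw b₂) h →
      (∃ P : Module.End K W₂, P * P = P ∧ h = P - (2 : K)⁻¹ • 1) ∨
        (h * h * h = h ∧ MTP.rk h = 2)) (hL : Lk L) (hb2 : b₂.Nondegenerate) (ha2 : ∀ v w, b₂ v w = b₂ w v)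
    (h1 : On1 L (slw K W₁)) (h2 : On2 L (skw b₂)) (he2 : Even (finrank K W₂))
    (hd2 : 6 ≤ finrank K W₂) :
    finrank K W₁ = 4 ∧ finrank K W₂ = 6 ∧ ∀ x ∈ L, ∀ (P : Module.End K W₁)
      (Q : Module.End K W₂) (c : K), P * P = P → Q * Q = Q → x.1 = P - c • 1 →
      x.2 = Q - (2 : K)⁻¹ • 1 → MTP.rk P = 1 ∨ MTP.rk P = 3 := by
  have n1 := P4.nontriv1 hL
  have n2 := P4.nontriv2 hL
  obtain ⟨x, hx, hx0, hg, hdim, -⟩ := P4.start hL h1 h2
  have hs := P4.mem2 h2 hx
  have e3 := dim_sl (K := K) (W := W₁)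
  have e4 := dim_so hb2 ha2
  have e5 := P4.dim_eq hL h1 h2
  rw [e5] at e3
  have key : finrank K W₁ = 4 ∧ finrank K W₂ = 6 := by
    rcases hgrd _ hs hx0 hg with ⟨P, hP, hxP⟩ | ⟨hh, hr⟩
    · rw [hxP] at hs hdim
      obtain ⟨e1, e2⟩ := dim_so_one hb2 ha2 hP hs
      rw [← e1] at e4 hd2 ⊢
      set k := MTP.rk P
      set n := finrank K W₁
      set D := finrank K (skw b₂)
      set G := finrank K (Gone (skw b₂) (P - (2 : K)⁻¹ • 1))
      have z1 : (2 * (n : ℤ) - 2) = k * k - k := by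
        have h3 : (2 * (G : ℤ)) + k = k * k := by exact_mod_cast e2
        have h4 : (G : ℤ) + 1 = n := by exact_mod_cast hdim
        linarith
      have z2 : ((n : ℤ) * n - 1) = 2 * (k * k) - k := by
        have h3 : (2 * (D : ℤ)) + 2 * k = 2 * k * (2 * k) := by exact_mod_cast e4
        have h4 : (D : ℤ) + 1 = n * n := by exact_mod_cast e3
        linarith
      have z3 : ((k : ℤ) * k - k) * (k * k - k + 4) = 4 * (2 * (k * k) - k) := by
        rw [← z1, ← z2]; ring
      have z4 : (k : ℤ) * (k * ((k + 1) * ((k : ℤ) - 3))) = 0 := by linear_combination z3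
      have hk : (k : ℤ) = 3 := by
        rcases mul_eq_zero.mp z4 with h3 | h3
        · exfalso; omega
        rcases mul_eq_zero.mp h3 with h3 | h3
        · exfalso; omega
        rcases mul_eq_zero.mp h3 with h3 | h3
        · exfalso; omega
        · omega
      rw [hk] at z1
      omega
    · exfalso
      have e1 := dim_so_vec hb2 ha2 hs hh hr
      obtain ⟨k, hk⟩ := he2
      rw [hk] at e1 e4 hd2
      set n := finrank K W₁
      set D := finrank K (skw b₂)
      set G := finrank K (Gone (skw b₂) x.2)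
      have z1 : (n : ℤ) = 2 * k - 1 := by
        have h3 : (G : ℤ) + 2 = k + k := by exact_mod_cast e1
        have h4 : (G : ℤ) + 1 = n := by exact_mod_cast hdim
        linarith
      have z2 : ((n : ℤ) * n - 1) = 2 * (k * k) - k := by
        have h3 : (2 * (D : ℤ)) + (k + k) = (k + k) * (k + k) := by exact_mod_cast e4
        have h4 : (D : ℤ) + 1 = n * n := by exact_mod_cast e3
        linarith
      rw [z1] at z2
      have z4 : (k : ℤ) * (2 * k - 3) = 0 := by linear_combination z2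
      rcases mul_eq_zero.mp z4 with h3 | h3 <;> omega
  refine ⟨key.1, key.2, ?_⟩
  intro y hy P Q c hP hQ hyP hyQ
  have hs1 := P4.mem1 h1 hy
  have hs2 := P4.mem2 h2 hy
  have hy2 : y.2 ≠ 0 := by
    rw [hyQ]
    intro h0
    rw [sub_eq_zero] at h0
    rw [h0, smul_mul_smul_comm, one_mul] at hQ
    have h3 : ((2 : K)⁻¹ * 2⁻¹ - 2⁻¹) • (1 : Module.End K W₂) = 0 := by rw [sub_smul, hQ, sub_self]
    have h4 := (smul_eq_zero.mp h3).resolve_right one_ne_zero
    norm_num at h4
  have hy1 := P4.ne2 hL hy hy2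
  rw [hyP] at hy1 hs1
  rw [hyQ] at hs2
  have hn0 : (finrank K W₁ : K) ≠ 0 := by
    rw [key.1]
    norm_num
  have hP0 : P ≠ 0 := by
    rintro rfl
    rw [slw, LinearMap.mem_ker, zero_sub, map_neg, map_smul, LinearMap.trace_one, smul_eq_mul,
      neg_eq_zero, mul_eq_zero] at hs1
    apply hy1
    rw [hs1.resolve_right hn0, zero_smul, sub_zero]
  have hP1 : P ≠ 1 := by
    rintro rfl
    have e : (1 : Module.End K W₁) - c • 1 = (1 - c) • 1 := by rw [sub_smul, one_smul]
    rw [e] at hs1 hy1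
    rw [slw, LinearMap.mem_ker, map_smul, LinearMap.trace_one, smul_eq_mul, mul_eq_zero] at hs1
    apply hy1
    rw [hs1.resolve_right hn0, zero_smul]
  have e6 := P4.gone_eq hL h1 h2 hy
  rw [hyP, hyQ, dim_sl_one hP hP0 hP1, key.1] at e6
  obtain ⟨e7, e8⟩ := dim_so_one hb2 ha2 hQ hs2
  rw [← e6, show MTP.rk Q = 3 by rw [key.2] at e7; omega] at e8
  have h4 : MTP.rk P ≤ 4 := by
    rw [← key.1]
    exact (LinearMap.range P).finrank_le
  generalize MTP.rk P = r at e8 h4
  interval_cases r <;> simp_all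

theorem P4.pair_SO_of (hgrd : ∀ h : Module.End K W₁, IsSk b₁ h → h ≠ 0 → Grd (skw b₁) h →
      ∃ P : Module.End K W₁, P * P = P ∧ h = P - (2 : K)⁻¹ • 1) (hL : Lk L) (hb1 : b₁.Nondegenerate) (ha1 : b₁.IsAlt)
    (hb2 : b₂.Nondegenerate) (ha2 : ∀ v w, b₂ v w = b₂ w v) (h1 : On1 L (skw b₁))
    (h2 : On2 L (skw b₂)) (he2 : Even (finrank K W₂)) (hd2 : 6 ≤ finrank K W₂) : False := by
  have n1 := P4.nontriv1 hL
  have n2 := P4.nontriv2 hL
  obtain ⟨h, hs, hh, hr, hg⟩ := P4.exists_vec hb2 ha2 (by omega)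
  obtain ⟨x, hx, rfl⟩ := P4.lift2 h2 (z := h) hs
  have hx2 : x.2 ≠ 0 := by
    intro h0
    rw [h0, MTP.rk, LinearMap.range_zero, finrank_bot] at hr
    omega
  have hx1 := P4.ne2 hL hx hx2
  have hs1 := P4.mem1 h1 hx
  obtain ⟨P, hP, hxP⟩ := hgrd _ hs1 hx1 (P4.grd21 hL h1 h2 hx hg)
  have e0 := P4.gone_eq hL h1 h2 hx
  rw [hxP] at hs1 e0
  obtain ⟨e1, e2⟩ := dim_sp_one hb1 ha1 hP hs1
  have e3 := dim_sp hb1 ha1
  have e4 := dim_so hb2 ha2
  have e5 := P4.dim_eq hL h1 h2
  have e6 := dim_so_vec hb2 ha2 hs hh hr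
  rw [← e1] at e3
  rw [e0] at e2
  rw [e5] at e3
  obtain ⟨k, hk⟩ := he2
  rw [hk] at e4 e6 hd2
  set l := MTP.rk P
  set D := finrank K (skw b₂)
  set G := finrank K (Gone (skw b₂) x.2)
  have z1 : (4 * (k : ℤ)) = l * (l + 1) + 4 := by
    have h3 : (2 * (G : ℤ)) = l * (l + 1) := by exact_mod_cast e2
    have h4 : (G : ℤ) + 2 = k + k := by exact_mod_cast e6
    linarith
  have z2 : (l : ℤ) * (2 * l + 1) = 2 * (k * k) - k := by
    have h3 : (2 * (D : ℤ)) = 2 * l * (2 * l + 1) := by exact_mod_cast e3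
    have h4 : (2 * (D : ℤ)) + (k + k) = (k + k) * (k + k) := by exact_mod_cast e4
    linarith
  have z3 : ((l : ℤ) - 1) * ((l - 2) * ((l + 1) * ((l : ℤ) + 4))) = 0 := by
    have h3 : 8 * ((l : ℤ) * (2 * l + 1)) = (4 * (k : ℤ)) * (4 * k) - 2 * (4 * k) := by
      rw [z2]; ring
    rw [z1] at h3
    linear_combination -h3
  rcases mul_eq_zero.mp z3 with h3 | h3
  · have hl : (l : ℤ) = 1 := by omega
    rw [hl] at z1
    omega
  rcases mul_eq_zero.mp h3 with h3 | h3
  · have hl : (l : ℤ) = 2 := by omega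
    rw [hl] at z1
    omega
  rcases mul_eq_zero.mp h3 with h3 | h3 <;> omega

end AV
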