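import Pool.Agent.Helper2.AV.PDefs
import Pool.Agent.Helper21.MT.Gour2

/-!
Pairs of linked Lie algebras of operators, block P4, general part: comparison of dimensions and
gradings; the symplectic - symplectic case.
-/

set_option linter.unusedSectionVars false

open Module

namespace AV

open MTP

namespace P4

variable {K : Type*} [Field K]
variable {W₁ W₂ : Type*} [AddCommGroup W₁] [Module K W₁] [FiniteDimensional K W₁]
  [AddCommGroup W₂] [Module K W₂] [FiniteDimensional K W₂]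
variable {L : Submodule K (Module.End K W₁ × Module.End K W₂)}
  {M₁ : Submodule K (Module.End K W₁)} {M₂ : Submodule K (Module.End K W₂)}

lemma ext1 (hL : Lk L) {x y : Module.End K W₁ × Module.End K W₂} (hx : x ∈ L) (hy : y ∈ L)
    (h : x.1 = y.1) : x = y := by
  have h1 := hL.k1 (x - y) (L.sub_mem hx hy) (by rw [Prod.fst_sub, h, sub_self])
  rw [Prod.snd_sub, sub_eq_zero] at h1
  exact Prod.ext h h1

lemma ext2 (hL : Lk L) {x y : Module.End K W₁ × Module.End K W₂} (hx : x ∈ L) (hy : y ∈ L)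
    (h : x.2 = y.2) : x = y := by
  have h1 := hL.k2 (x - y) (L.sub_mem hx hy) (by rw [Prod.snd_sub, h, sub_self])
  rw [Prod.fst_sub, sub_eq_zero] at h1
  exact Prod.ext h1 h

lemma lift1 (h1 : On1 L M₁) {z : Module.End K W₁} (hz : z ∈ M₁) : ∃ x ∈ L, x.1 = z := by
  rw [On1] at h1
  rw [← h1] at hz
  exact hz

lemma lift2 (h2 : On2 L M₂) {z : Module.End K W₂} (hz : z ∈ M₂) : ∃ x ∈ L, x.2 = z := by
  rw [On2] at h2
  rw [← h2] at hz
  exact hz

lemma mem1 (h1 : On1 L M₁) {x : Module.End K W₁ × Module.End K W₂} (hx : x ∈ L) : x.1 ∈ M₁ := by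
  rw [On1] at h1
  rw [← h1]
  exact ⟨x, hx, rfl⟩

lemma mem2 (h2 : On2 L M₂) {x : Module.End K W₁ × Module.End K W₂} (hx : x ∈ L) : x.2 ∈ M₂ := by
  rw [On2] at h2
  rw [← h2]
  exact ⟨x, hx, rfl⟩

lemma finrank_fst (hL : Lk L) {S : Submodule K (Module.End K W₁ × Module.End K W₂)}
    (hS : S ≤ L) : finrank K (S.map (LinearMap.fst K _ _)) = finrank K S := by
  have h := LinearMap.finrank_range_of_inj
    (f := (LinearMap.fst K (Module.End K W₁) (Module.End K W₂)).domRestrict S) (by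
      rintro ⟨x, hx⟩ ⟨y, hy⟩ hxy
      exact Subtype.ext (ext1 hL (hS hx) (hS hy) hxy))
  rwa [LinearMap.range_domRestrict] at h

lemma finrank_snd (hL : Lk L) {S : Submodule K (Module.End K W₁ × Module.End K W₂)}
    (hS : S ≤ L) : finrank K (S.map (LinearMap.snd K _ _)) = finrank K S := by
  have h := LinearMap.finrank_range_of_inj
    (f := (LinearMap.snd K (Module.End K W₁) (Module.End K W₂)).domRestrict S) (by
      rintro ⟨x, hx⟩ ⟨y, hy⟩ hxy
      exact Subtype.ext (ext2 hL (hS hx) (hS hy) hxy))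
  rwa [LinearMap.range_domRestrict] at h

/-- Linked Lie algebras have the same dimension. -/
theorem dim_eq (hL : Lk L) (h1 : On1 L M₁) (h2 : On2 L M₂) : finrank K M₁ = finrank K M₂ := by
  rw [← h1, ← h2, finrank_fst hL le_rfl, finrank_snd hL le_rfl]

/-- The parts of degree one have the same dimension. -/
theorem gone_eq (hL : Lk L) (h1 : On1 L M₁) (h2 : On2 L M₂)
    {x : Module.End K W₁ × Module.End K W₂} (hx : x ∈ L) :
    finrank K (Gone M₁ x.1) = finrank K (Gone M₂ x.2) := by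
  let S : Submodule K (Module.End K W₁ × Module.End K W₂) :=
    { carrier := {y | y ∈ L ∧ x * y - y * x = y}
      add_mem' := by
        rintro y z ⟨hy, hy'⟩ ⟨hz, hz'⟩
        refine ⟨L.add_mem hy hz, ?_⟩
        rw [mul_add, add_mul, add_sub_add_comm, hy', hz']
      zero_mem' := ⟨L.zero_mem, by simp⟩
      smul_mem' := by
        rintro c y ⟨hy, hy'⟩
        refine ⟨L.smul_mem c hy, ?_⟩
        rw [mul_smul_comm, smul_mul_assoc, ← smul_sub, hy'] }
  have hS : S ≤ L := fun y hy => hy.1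
  have e1 : S.map (LinearMap.fst K _ _) = Gone M₁ x.1 := by
    ext z
    constructor
    · rintro ⟨y, ⟨hy, hy'⟩, rfl⟩
      exact ⟨mem1 h1 hy, congrArg Prod.fst hy'⟩
    · rintro ⟨hz, hz'⟩
      obtain ⟨y, hy, rfl⟩ := lift1 h1 hz
      exact ⟨y, ⟨hy, ext1 hL (hL.br x hx y hy) hy hz'⟩, rfl⟩
  have e2 : S.map (LinearMap.snd K _ _) = Gone M₂ x.2 := by
    ext z
    constructor
    · rintro ⟨y, ⟨hy, hy'⟩, rfl⟩
      exact ⟨mem2 h2 hy, congrArg Prod.snd hy'⟩
    · rintro ⟨hz, hz'⟩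
      obtain ⟨y, hy, rfl⟩ := lift2 h2 hz
      exact ⟨y, ⟨hy, ext2 hL (hL.br x hx y hy) hy hz'⟩, rfl⟩
  rw [← e1, ← e2, finrank_fst hL hS, finrank_snd hL hS]

/-- Transfer of gradings. -/
theorem grd12 (hL : Lk L) (h1 : On1 L M₁) (h2 : On2 L M₂)
    {x : Module.End K W₁ × Module.End K W₂} (hx : x ∈ L) (h : Grd M₁ x.1) : Grd M₂ x.2 := by
  intro z hz
  obtain ⟨y, hy, rfl⟩ := lift2 h2 hz
  have hb := hL.br x hx y hy
  have hb2 := hL.br x hx _ hb
  have hb3 := hL.br x hx _ hb2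
  exact congrArg Prod.snd (ext1 hL hb3 hb (h y.1 (mem1 h1 hy)))

theorem grd21 (hL : Lk L) (h1 : On1 L M₁) (h2 : On2 L M₂)
    {x : Module.End K W₁ × Module.End K W₂} (hx : x ∈ L) (h : Grd M₂ x.2) : Grd M₁ x.1 := by
  intro z hz
  obtain ⟨y, hy, rfl⟩ := lift1 h1 hz
  have hb := hL.br x hx y hy
  have hb2 := hL.br x hx _ hb
  have hb3 := hL.br x hx _ hb2
  exact congrArg Prod.fst (ext2 hL hb3 hb (h y.2 (mem2 h2 hy)))

/-- An idempotent minus a scalar gives a grading. -/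
theorem grd_idem {W : Type*} [AddCommGroup W] [Module K W] (M : Submodule K (Module.End K W))
    {P : Module.End K W} (hP : P * P = P) (c : K) : Grd M (P - c • 1) := by
  intro x _
  have e1 : ∀ y : Module.End K W, (P - c • 1) * y - y * (P - c • 1) = P * y - y * P := by
    intro y
    rw [sub_mul, mul_sub, smul_mul_assoc, mul_smul_comm, one_mul, mul_one]
    abel
  rw [e1, e1, e1]
  have e2 : P * (P * (P * x - x * P) - (P * x - x * P) * P) -
      (P * (P * x - x * P) - (P * x - x * P) * P) * P =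
      (P * P * P) * x - 3 • ((P * P) * x * P) + 3 • (P * x * (P * P)) - x * (P * P * P) := by
    noncomm_ring
  rw [e2, hP, hP]
  noncomm_ring

lemma ne1 (hL : Lk L) {x : Module.End K W₁ × Module.End K W₂} (hx : x ∈ L) (h : x.1 ≠ 0) :
    x.2 ≠ 0 := fun h2 => h (hL.k2 x hx h2)

lemma ne2 (hL : Lk L) {x : Module.End K W₁ × Module.End K W₂} (hx : x ∈ L) (h : x.2 ≠ 0) :
    x.1 ≠ 0 := fun h1 => h (hL.k1 x hx h1)

lemma nontriv1 (hL : Lk L) : Nontrivial W₁ := by
  obtain ⟨x, hx, hx0⟩ := hL.ne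
  by_contra hcon
  rw [not_nontrivial_iff_subsingleton] at hcon
  have h1 : x.1 = 0 := Subsingleton.elim _ _
  exact hx0 (Prod.ext h1 (hL.k1 x hx h1))

lemma nontriv2 (hL : Lk L) : Nontrivial W₂ := by
  obtain ⟨x, hx, hx0⟩ := hL.ne
  by_contra hcon
  rw [not_nontrivial_iff_subsingleton] at hcon
  have h1 : x.2 = 0 := Subsingleton.elim _ _
  exact hx0 (Prod.ext (hL.k2 x hx h1) h1)

/-- An idempotent of rank one. -/
theorem exists_one (K : Type*) [Field K] (W : Type*) [AddCommGroup W] [Module K W]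
    [FiniteDimensional K W] [Nontrivial W] :
    ∃ q : Module.End K W, q * q = q ∧ MTP.rk q = 1 ∧ LinearMap.trace K W q = 1 := by
  obtain ⟨v, hv⟩ := exists_ne (0 : W)
  obtain ⟨φ, hφ⟩ := Module.Projective.exists_dual_ne_zero K hv
  set ψ : Module.Dual K W := (φ v)⁻¹ • φ with hψ
  have hψv : ψ v = 1 := by
    rw [hψ, LinearMap.smul_apply, smul_eq_mul, inv_mul_cancel₀ hφ]
  set q : Module.End K W := ψ.smulRight v with hq
  have hqw : ∀ w, q w = ψ w • v := fun w => by rw [hq, LinearMap.smulRight_apply]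
  have hqq : q * q = q := by
    ext w
    rw [Module.End.mul_apply, hqw, hqw, map_smul, hψv, smul_eq_mul, mul_one]
  have e : LinearMap.range q = Submodule.span K {v} := by
    ext w
    rw [Submodule.mem_span_singleton, LinearMap.mem_range]
    constructor
    · rintro ⟨u, rfl⟩
      exact ⟨ψ u, (hqw u).symm⟩
    · rintro ⟨c, rfl⟩
      exact ⟨c • v, by rw [hqw, map_smul, hψv, smul_eq_mul, mul_one]⟩
  have hrk : finrank K (LinearMap.range q) = 1 := by rw [e, finrank_span_singleton hv]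
  refine ⟨q, hqq, hrk, ?_⟩
  have hp : LinearMap.IsProj (LinearMap.range q) q := by
    refine ⟨fun w => LinearMap.mem_range_self q w, ?_⟩
    rintro _ ⟨w, rfl⟩
    exact LinearMap.congr_fun hqq w
  rw [hp.trace, hrk, Nat.cast_one]

end P4

variable {K : Type*} [Field K]
variable {W₁ W₂ : Type*} [AddCommGroup W₁] [Module K W₁] [FiniteDimensional K W₁]
  [AddCommGroup W₂] [Module K W₂] [FiniteDimensional K W₂]
variable {L : Submodule K (Module.End K W₁ × Module.End K W₂)}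
  {b₁ : LinearMap.BilinForm K W₁} {b₂ : LinearMap.BilinForm K W₂}

variable [IsAlgClosed K] [CharZero K]

theorem pair_SS (hL : Lk L) (hb1 : b₁.Nondegenerate) (ha1 : b₁.IsAlt)
    (hb2 : b₂.Nondegenerate) (ha2 : b₂.IsAlt) (h1 : On1 L (skw b₁)) (h2 : On2 L (skw b₂)) :
    ∃ f : W₁ →ₗ[K] W₂, f ≠ 0 ∧ ∀ x ∈ L, ∀ v, f (x.1 v) = x.2 (f v) := by
  have n1 := P4.nontriv1 hL
  have n2 := P4.nontriv2 hL
  obtain ⟨e, he⟩ := goursat_two hb1 ha1 hb2 ha2 L hL.br (fun x hx => P4.mem1 h1 hx)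
    (fun x hx => P4.mem2 h2 hx) (fun z hz => P4.lift1 h1 hz) (fun z hz => P4.lift2 h2 hz) hL.k1
  refine ⟨e, ?_, he⟩
  intro h0
  obtain ⟨v, hv⟩ := exists_ne (0 : W₁)
  exact hv (e.map_eq_zero_iff.mp (LinearMap.congr_fun h0 v))

end AV
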